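import Mathlib

set_option autoImplicit false

namespace Pool.Agent.Results.MP_737bdd_co.Hyperplanes

open Finset

section lower

lemma rpow_aux {r : ℕ} (hr : 2 ≤ r) {q : ℝ} (hq : 0 ≤ q) :
    ∃ y : ℝ, 0 ≤ y ∧ y ^ (r - 1) = q ∧ y ^ r = q ^ ((r : ℝ) / (r - 1)) := by
  have h1 : (0 : ℝ) < (r : ℝ) - 1 := by
    have : (2 : ℝ) ≤ r := by exact_mod_cast hr
    linarith
  refine ⟨q ^ (1 / ((r : ℝ) - 1)), Real.rpow_nonneg hq _, ?_, ?_⟩
  · rw [← Real.rpow_natCast, ← Real.rpow_mul hq]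
    have : (1 / ((r : ℝ) - 1)) * ((r - 1 : ℕ) : ℝ) = 1 := by
      rw [Nat.cast_sub (by omega), Nat.cast_one]
      field_simp
    rw [this, Real.rpow_one]
  · rw [← Real.rpow_natCast, ← Real.rpow_mul hq]
    congr 1
    field_simp

/-- few `r`-sets are contained in short intervals -/
lemma short_count {n r l : ℕ} (hr : 1 ≤ r) (S : Finset (Finset ℕ)) (hS : ∀ e ∈ S, e ⊆ range n ∧ e.card = r)
    (hl : ∀ e ∈ S, ∀ a ∈ e, ∀ b ∈ e, b ≤ a + l) : S.card ≤ n * l ^ (r - 1) := by
  have hsub : S ⊆ (range n).biUnion (fun a => (powersetCard (r - 1) (Ioc a (a + l))).image (insert a)) := by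
    intro e he
    have hne : e.Nonempty := by rw [← card_pos, (hS e he).2]; omega
    rw [mem_biUnion]
    refine ⟨e.min' hne, (hS e he).1 (min'_mem _ _), ?_⟩
    rw [mem_image]
    refine ⟨e.erase (e.min' hne), ?_, insert_erase (min'_mem _ _)⟩
    rw [mem_powersetCard]
    refine ⟨fun x hx => ?_, ?_⟩
    · rw [mem_Ioc]
      have hxe := mem_of_mem_erase hx
      exact ⟨lt_of_le_of_ne (min'_le _ _ hxe) (ne_of_mem_erase hx).symm, hl e he _ (min'_mem _ _) _ hxe⟩
    · rw [card_erase_of_mem (min'_mem _ _), (hS e he).2]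
  refine (card_le_card hsub).trans ?_
  refine (card_biUnion_le_card_mul _ _ (l ^ (r - 1)) ?_).trans ?_
  · intro a _
    refine card_image_le.trans ?_
    rw [card_powersetCard, Nat.card_Ioc, show a + l - a = l by omega]
    exact Nat.choose_le_pow _ _
  · rw [card_range]

lemma comb_lower {n r m : ℕ} (hn : 0 < n) (hr : 2 ≤ r) (E : Finset (Finset ℕ))
    (hE : ∀ e ∈ E, e ⊆ range n ∧ e.card = r) (hm : E.card = m) :
    ∃ i ∈ range n, ((m : ℝ) / (2 * n)) ^ ((r : ℝ) / (r - 1)) ≤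
      ((E.filter (fun e => ∃ a ∈ e, ∃ b ∈ e, a ≤ i ∧ i ≤ b)).card : ℝ) := by
  classical
  have hnR : (0 : ℝ) < n := by exact_mod_cast hn
  obtain ⟨y, hy0, hy1, hy2⟩ := rpow_aux hr (q := (m : ℝ) / (2 * n)) (by positivity)
  rw [← hy2]
  set l := ⌊y⌋₊ with hl
  let P : Finset ℕ → Prop := fun e => ∀ a ∈ e, ∀ b ∈ e, b ≤ a + l
  have hS : ((E.filter P).card : ℝ) ≤ m / 2 := by
    have h1 := short_count (n := n) (r := r) (l := l) (by omega) (E.filter P)
      (fun e he => hE e (mem_filter.mp he).1) (fun e he => (mem_filter.mp he).2)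
    have h2 : ((E.filter P).card : ℝ) ≤ n * (l : ℝ) ^ (r - 1) := by exact_mod_cast h1
    have h3 : (l : ℝ) ^ (r - 1) ≤ y ^ (r - 1) := pow_le_pow_left₀ (by positivity) (Nat.floor_le hy0) _
    calc ((E.filter P).card : ℝ) ≤ n * (l : ℝ) ^ (r - 1) := h2
      _ ≤ n * y ^ (r - 1) := mul_le_mul_of_nonneg_left h3 hnR.le
      _ = m / 2 := by rw [hy1]; field_simp
  have hL : (m / 2 : ℝ) ≤ ((E.filter (fun e => ¬ P e)).card : ℝ) := by
    have h1 := card_filter_add_card_filter_not (s := E) P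
    have h2 : ((E.filter P).card : ℝ) + ((E.filter (fun e => ¬ P e)).card : ℝ) = m := by
      rw [← hm]; exact_mod_cast h1
    linarith
  have hlong : ∀ e ∈ E.filter (fun e => ¬ P e),
      y ≤ (((range n).filter (fun i => ∃ a ∈ e, ∃ b ∈ e, a ≤ i ∧ i ≤ b)).card : ℝ) := by
    intro e he
    obtain ⟨heE, hne⟩ := mem_filter.mp he
    simp only [P] at hne
    push Not at hne
    obtain ⟨a, ha, b, hb, hab⟩ := hne
    have h1 : Icc a b ⊆ (range n).filter (fun i => ∃ a ∈ e, ∃ b ∈ e, a ≤ i ∧ i ≤ b) := by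
      intro i hi
      rw [mem_Icc] at hi
      rw [mem_filter, mem_range]
      have hbn := mem_range.mp ((hE e heE).1 hb)
      exact ⟨by omega, a, ha, b, hb, hi.1, hi.2⟩
    have h2 : l + 1 ≤ ((range n).filter (fun i => ∃ a ∈ e, ∃ b ∈ e, a ≤ i ∧ i ≤ b)).card := by
      refine le_trans ?_ (card_le_card h1)
      rw [Nat.card_Icc]; omega
    have h3 : y < l + 1 := Nat.lt_floor_add_one y
    have h4 : ((l + 1 : ℕ) : ℝ) ≤ (((range n).filter (fun i => ∃ a ∈ e, ∃ b ∈ e, a ≤ i ∧ i ≤ b)).card : ℝ) := by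
      exact_mod_cast h2
    push_cast at h4
    linarith
  have hdc : ∑ i ∈ range n, ((E.filter (fun e => ∃ a ∈ e, ∃ b ∈ e, a ≤ i ∧ i ≤ b)).card : ℝ)
      = ∑ e ∈ E, (((range n).filter (fun i => ∃ a ∈ e, ∃ b ∈ e, a ≤ i ∧ i ≤ b)).card : ℝ) := by
    simp only [card_filter]
    push_cast
    rw [sum_comm]
  have htot : (m / 2 : ℝ) * y ≤ ∑ i ∈ range n, ((E.filter (fun e => ∃ a ∈ e, ∃ b ∈ e, a ≤ i ∧ i ≤ b)).card : ℝ) := by
    rw [hdc]
    calc (m / 2 : ℝ) * y ≤ ((E.filter (fun e => ¬ P e)).card : ℝ) * y := mul_le_mul_of_nonneg_right hL hy0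
      _ = ∑ e ∈ E.filter (fun e => ¬ P e), y := by rw [sum_const, nsmul_eq_mul]
      _ ≤ ∑ e ∈ E.filter (fun e => ¬ P e), (((range n).filter (fun i => ∃ a ∈ e, ∃ b ∈ e, a ≤ i ∧ i ≤ b)).card : ℝ) :=
          sum_le_sum hlong
      _ ≤ _ := sum_le_sum_of_subset_of_nonneg (filter_subset _ _) (fun _ _ _ => by positivity)
  by_contra hcon
  push Not at hcon
  have h1 : ∑ i ∈ range n, ((E.filter (fun e => ∃ a ∈ e, ∃ b ∈ e, a ≤ i ∧ i ≤ b)).card : ℝ) < ∑ i ∈ range n, y ^ r :=
    sum_lt_sum_of_nonempty ⟨0, mem_range.mpr hn⟩ hcon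
  rw [sum_const, card_range, nsmul_eq_mul] at h1
  have h2 : (n : ℝ) * y ^ r = (m / 2) * y := by
    have : y ^ r = y ^ (r - 1) * y := by rw [← pow_succ]; congr 1; omega
    rw [this, hy1]; field_simp
  linarith

end lower

section blocks

/-- the `r`-subsets of `range n` inside one block of length `s` -/
def blk (n r s : ℕ) : Finset (Finset ℕ) :=
  (powersetCard r (range n)).filter (fun e => ∀ x ∈ e, ∀ y ∈ e, x / s = y / s)

lemma blk_full {n r : ℕ} : (blk n r n).card = n.choose r := by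
  have : blk n r n = powersetCard r (range n) := by
    unfold blk
    apply filter_true_of_mem
    intro e he x hx y hy
    have h1 := mem_range.mp ((mem_powersetCard.mp he).1 hx)
    have h2 := mem_range.mp ((mem_powersetCard.mp he).1 hy)
    rw [Nat.div_eq_of_lt h1, Nat.div_eq_of_lt h2]
  rw [this, card_powersetCard, card_range]

lemma blk_card {n r x : ℕ} (hr : 1 ≤ r) : (n / x) * x.choose r ≤ (blk n r x).card := by
  have hsub : (range (n / x)).biUnion (fun j => powersetCard r (Ico (j * x) ((j + 1) * x))) ⊆ blk n r x := by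
    intro e he
    obtain ⟨j, hj, he⟩ := mem_biUnion.mp he
    obtain ⟨he1, he2⟩ := mem_powersetCard.mp he
    have hjn : (j + 1) * x ≤ n := by
      have h1 : j + 1 ≤ n / x := mem_range.mp hj
      exact (Nat.mul_le_mul_right _ h1).trans (Nat.div_mul_le_self _ _)
    have hdiv : ∀ y ∈ e, y / x = j := by
      intro y hy
      obtain ⟨h1, h2⟩ := mem_Ico.mp (he1 hy)
      exact Nat.div_eq_of_lt_le h1 h2
    unfold blk
    rw [mem_filter, mem_powersetCard]
    refine ⟨⟨fun y hy => ?_, he2⟩, fun y hy z hz => by rw [hdiv y hy, hdiv z hz]⟩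
    obtain ⟨h1, h2⟩ := mem_Ico.mp (he1 hy)
    rw [mem_range]; omega
  refine le_trans ?_ (card_le_card hsub)
  rw [card_biUnion]
  · rw [sum_const_nat (m := x.choose r), card_range]
    intro j _
    rw [card_powersetCard, Nat.card_Ico]
    congr 1
    rw [← Nat.sub_mul]; simp
  · intro i _ j _ hij
    rw [Function.onFun, Finset.disjoint_left]
    intro e he he'
    obtain ⟨he1, he2⟩ := mem_powersetCard.mp he
    obtain ⟨he1', _⟩ := mem_powersetCard.mp he'
    have hne : e.Nonempty := by rw [← card_pos, he2]; omega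
    obtain ⟨y, hy⟩ := hne
    obtain ⟨h1, h2⟩ := mem_Ico.mp (he1 hy)
    obtain ⟨h3, h4⟩ := mem_Ico.mp (he1' hy)
    apply hij
    rw [← Nat.div_eq_of_lt_le h1 h2, Nat.div_eq_of_lt_le h3 h4]

lemma pow_le_choose : ∀ r x : ℕ, 1 ≤ r → r ≤ x → (x : ℝ) ^ r ≤ r ^ r * ((x.choose r : ℕ) : ℝ) := by
  intro r
  induction r with
  | zero => intro x h; omega
  | succ r ih =>
    intro x _ hx
    obtain ⟨y, rfl⟩ : ∃ y, x = y + 1 := ⟨x - 1, by omega⟩
    rcases Nat.eq_zero_or_pos r with rfl | hr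
    · simp
    have h1 := ih y hr (by omega)
    have h2 : ((y : ℝ) + 1) * y.choose r = (y + 1).choose (r + 1) * (r + 1) := by
      exact_mod_cast Nat.add_one_mul_choose_eq y r
    have hyr : (r : ℝ) ≤ y := by exact_mod_cast (by omega : r ≤ y)
    have hr0 : (0 : ℝ) < r := by exact_mod_cast hr
    have h3 : (((y : ℝ) + 1) * r) ^ r ≤ (((r : ℝ) + 1) * y) ^ r :=
      pow_le_pow_left₀ (by positivity) (by nlinarith) _
    rw [mul_pow, mul_pow] at h3
    have h4 : ((y : ℝ) + 1) ^ r ≤ ((r : ℝ) + 1) ^ r * y.choose r := by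
      have hrr : (0 : ℝ) < (r : ℝ) ^ r := by positivity
      have h5 : ((y : ℝ) + 1) ^ r * r ^ r ≤ (((r : ℝ) + 1) ^ r * y.choose r) * r ^ r := by
        calc ((y : ℝ) + 1) ^ r * r ^ r ≤ ((r : ℝ) + 1) ^ r * y ^ r := h3
          _ ≤ ((r : ℝ) + 1) ^ r * (r ^ r * y.choose r) := mul_le_mul_of_nonneg_left h1 (by positivity)
          _ = _ := by ring
      exact le_of_mul_le_mul_right h5 hrr
    push_cast
    calc ((y : ℝ) + 1) ^ (r + 1) = (y + 1) ^ r * (y + 1) := pow_succ _ _
      _ ≤ (((r : ℝ) + 1) ^ r * y.choose r) * (y + 1) := mul_le_mul_of_nonneg_right h4 (by positivity)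
      _ = ((r : ℝ) + 1) ^ r * ((y + 1) * y.choose r) := by ring
      _ = ((r : ℝ) + 1) ^ (r + 1) * (y + 1).choose (r + 1) := by rw [h2, pow_succ]; ring

lemma choose_succ_le {x r : ℕ} (hxr : r ≤ x) : (x + 1).choose r ≤ (r + 1) * x.choose r := by
  have h1 := Nat.choose_mul_succ_eq x r
  have h2 : x + 1 ≤ (r + 1) * (x + 1 - r) := by
    obtain ⟨j, rfl⟩ : ∃ j, x = r + j := ⟨x - r, by omega⟩
    rw [show r + j + 1 - r = j + 1 by omega]
    nlinarith
  have h3 : (x + 1).choose r * (x + 1 - r) ≤ ((r + 1) * x.choose r) * (x + 1 - r) := by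
    rw [← h1]
    calc x.choose r * (x + 1) ≤ x.choose r * ((r + 1) * (x + 1 - r)) := Nat.mul_le_mul_left _ h2
      _ = _ := by ring
  exact Nat.le_of_mul_le_mul_right h3 (by omega)

/-- choice of the block length -/
lemma choose_block {n r m : ℕ} (hn : 0 < n) (hr : 2 ≤ r) (hm : m ≤ n.choose r) :
    ∃ s, 0 < s ∧ m ≤ (blk n r s).card ∧
      ((s.choose r : ℕ) : ℝ) ≤ 1 + 4 * (r + 1) * r ^ r * ((m : ℝ) / n) ^ ((r : ℝ) / (r - 1)) := by
  classical
  have hnR : (0 : ℝ) < n := by exact_mod_cast hn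
  have hex : ∃ s, 0 < s ∧ m ≤ (blk n r s).card := ⟨n, hn, by rw [blk_full]; exact hm⟩
  obtain ⟨hs0, hs1⟩ := Nat.find_spec hex
  have hmin := fun t (ht : t < Nat.find hex) => Nat.find_min hex ht
  set s := Nat.find hex with hs
  have hsn : s ≤ n := Nat.find_min' hex ⟨hn, by rw [blk_full]; exact hm⟩
  refine ⟨s, hs0, hs1, ?_⟩
  clear hs
  clear_value s
  obtain ⟨z, hz0, hz1, hz2⟩ := rpow_aux hr (q := (m : ℝ) / n) (by positivity)
  rw [← hz2]
  rcases Nat.lt_or_ge r s with hrs | hrs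
  · -- `x = s - 1 ≥ r`
    obtain ⟨x, rfl⟩ : ∃ x, s = x + 1 := ⟨s - 1, by omega⟩
    have hxr : r ≤ x := by omega
    have hx0 : 0 < x := by omega
    have hlt : (blk n r x).card < m := by
      have := hmin x (by omega)
      push Not at this
      exact this hx0
    have h1 := (blk_card (n := n) (r := r) (x := x) (by omega)).trans_lt hlt
    -- `n ≤ 2 x (n/x)`
    have h2 : n ≤ 2 * x * (n / x) := by
      have h3 := Nat.div_add_mod n x
      have h4 := Nat.mod_lt n hx0
      have h5 : 1 ≤ n / x := Nat.div_pos (by omega) hx0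
      have h6 : x ≤ x * (n / x) := Nat.le_mul_of_pos_right _ h5
      have h7 : 2 * x * (n / x) = x * (n / x) + x * (n / x) := by ring
      omega
    have h3 : n * x.choose r ≤ 2 * x * m := by
      calc n * x.choose r ≤ 2 * x * (n / x) * x.choose r := Nat.mul_le_mul_right _ h2
        _ = 2 * x * (n / x * x.choose r) := by ring
        _ ≤ 2 * x * m := Nat.mul_le_mul_left _ h1.le
    have h4 : ((x.choose r : ℕ) : ℝ) ≤ 2 * x * (m / n) := by
      have : (n : ℝ) * x.choose r ≤ 2 * x * m := by exact_mod_cast h3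
      rw [show 2 * (x : ℝ) * (m / n) = (2 * x * m) / n by ring, le_div_iff₀ hnR]
      linarith
    -- `(x/r)^r ≤ C(x,r)`
    have h5 : (x : ℝ) ^ r ≤ r ^ r * ((x.choose r : ℕ) : ℝ) := pow_le_choose r x (by omega) hxr
    have hxR : (0 : ℝ) < x := by exact_mod_cast hx0
    have h6 : (x : ℝ) ^ (r - 1) ≤ 2 * r ^ r * z ^ (r - 1) := by
      rw [hz1]
      have h7 : (x : ℝ) ^ r = x ^ (r - 1) * x := by rw [← pow_succ]; congr 1; omega
      have h8 : (x : ℝ) ^ (r - 1) * x ≤ (2 * r ^ r * (m / n)) * x := by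
        rw [← h7]
        calc (x : ℝ) ^ r ≤ r ^ r * ((x.choose r : ℕ) : ℝ) := h5
          _ ≤ r ^ r * (2 * x * (m / n)) := mul_le_mul_of_nonneg_left h4 (by positivity)
          _ = _ := by ring
      exact le_of_mul_le_mul_right h8 hxR
    have hc1 : (1 : ℝ) ≤ 2 * r ^ r := by
      have : (1 : ℝ) ≤ (r : ℝ) ^ r := one_le_pow₀ (by exact_mod_cast (by omega : 1 ≤ r))
      linarith
    have h7 : (x : ℝ) ≤ 2 * r ^ r * z := by
      have h8 : (x : ℝ) ^ (r - 1) ≤ (2 * r ^ r * z) ^ (r - 1) := by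
        refine h6.trans ?_
        rw [mul_pow]
        refine mul_le_mul_of_nonneg_right ?_ (by positivity)
        exact le_self_pow₀ hc1 (by omega)
      exact le_of_pow_le_pow_left₀ (by omega) (by positivity) h8
    -- `C(x+1,r) ≤ (r+1) C(x,r)`
    have h8 : (x + 1).choose r ≤ (r + 1) * x.choose r := choose_succ_le hxr
    have h9 : (((x + 1).choose r : ℕ) : ℝ) ≤ (r + 1) * x.choose r := by exact_mod_cast h8
    have h10 : z ^ r = z ^ (r - 1) * z := by rw [← pow_succ]; congr 1; omega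
    calc (((x + 1).choose r : ℕ) : ℝ) ≤ (r + 1) * x.choose r := h9
      _ ≤ (r + 1) * (2 * x * (m / n)) := mul_le_mul_of_nonneg_left h4 (by positivity)
      _ ≤ (r + 1) * (2 * (2 * r ^ r * z) * (m / n)) := by
          gcongr
      _ = 4 * (r + 1) * r ^ r * z ^ r := by rw [h10, hz1]; ring
      _ ≤ 1 + 4 * (r + 1) * r ^ r * z ^ r := by linarith
  · have h1 : s.choose r ≤ 1 := by
      rcases hrs.eq_or_lt with h | h
      · rw [h, Nat.choose_self]
      · rw [Nat.choose_eq_zero_of_lt h]; omega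
    have h2 : ((s.choose r : ℕ) : ℝ) ≤ 1 := by exact_mod_cast h1
    have h3 : (0 : ℝ) ≤ 4 * (r + 1) * r ^ r * z ^ r := by positivity
    linarith

end blocks
/-- A `d`-dimensional geometric `r`-hypergraph: a finite set `V` of points of `ℝ^d`, no `d + 1` of them on a
common hyperplane (every `d + 1` of them are affinely independent), and a finite set `E` of edges, each of them
a set of `r` affinely independent points of `V` (the vertices of a closed `(r - 1)`-dimensional simplex). -/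
structure GeomHypergraph (d r : ℕ) where
  V : Finset (Fin d → ℝ)
  general : ∀ s ⊆ V, s.card = d + 1 → AffineIndependent ℝ (fun x : s => (x : Fin d → ℝ))
  E : Finset (Finset (Fin d → ℝ))
  sub : ∀ e ∈ E, e ⊆ V
  card_edge : ∀ e ∈ E, e.card = r
  simplex : ∀ e ∈ E, AffineIndependent ℝ (fun x : e => (x : Fin d → ℝ))

/-- `L` is a `k`-dimensional affine subspace. -/
def IsFlat {d : ℕ} (k : ℕ) (L : AffineSubspace ℝ (Fin d → ℝ)) : Prop :=
  (L : Set (Fin d → ℝ)).Nonempty ∧ Module.finrank ℝ L.direction = k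

/-- the number of edges (closed simplices) of `H` met by `L` -/
noncomputable def met {d r : ℕ} (H : GeomHypergraph d r) (L : AffineSubspace ℝ (Fin d → ℝ)) : ℕ :=
  Set.ncard {e : Finset (Fin d → ℝ) | e ∈ H.E ∧ ((L : Set (Fin d → ℝ)) ∩ convexHull ℝ (e : Set (Fin d → ℝ))).Nonempty}

/-- `f^k_{d,r}(m,n)`: the largest `t` such that every geometric `r`-hypergraph in `ℝ^d` with `n` vertices and
`m` edges has a `k`-flat meeting at least `t` of its edges. -/
noncomputable def f (d r k m n : ℕ) : ℕ :=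
  sSup {t : ℕ | ∀ H : GeomHypergraph d r, H.V.card = n → H.E.card = m → ∃ L, IsFlat k L ∧ t ≤ met H L}


section moment

/-- the moment curve -/
def mc (d : ℕ) (t : ℝ) : Fin d → ℝ := fun j => t ^ ((j : ℕ) + 1)

lemma mc_inj {d : ℕ} (hd : 1 ≤ d) {s t : ℕ} (h : mc d s = mc d t) : s = t := by
  have := congrFun h ⟨0, hd⟩
  simp only [mc, zero_add, pow_one] at this
  exact_mod_cast this

lemma moment_aff {d : ℕ} (s : Finset (Fin d → ℝ)) (hs : ∀ x ∈ s, ∃ t : ℕ, mc d t = x) (hc : s.card ≤ d + 1) :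
    AffineIndependent ℝ (fun x : s => (x : Fin d → ℝ)) := by
  classical
  choose t ht using fun x : s => hs x.1 x.2
  have htinj : ∀ x y : s, t x = t y → x = y := by
    intro x y h
    apply Subtype.ext
    rw [← ht x, ← ht y, h]
  rw [affineIndependent_iff]
  intro S w hw0 hw1 i hi
  let Q : Polynomial ℝ := ∏ k ∈ S.erase i, (Polynomial.X - Polynomial.C (t k : ℝ))
  have hQdeg : Q.natDegree < d + 1 := by
    have h1 : Q.natDegree = (S.erase i).card := by
      simp only [Q]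
      rw [Polynomial.natDegree_prod_of_monic _ _ (fun k _ => Polynomial.monic_X_sub_C _),
        sum_congr rfl (fun k _ => Polynomial.natDegree_X_sub_C _), sum_const, smul_eq_mul, mul_one]
    rw [h1, card_erase_of_mem hi]
    have h2 : S.card ≤ s.card := by
      have := card_le_card (subset_univ S)
      rwa [card_univ, Fintype.card_coe] at this
    have h3 : 0 < S.card := card_pos.mpr ⟨i, hi⟩
    omega
  have hpow : ∀ j ∈ range (d + 1), ∑ k ∈ S, w k * (t k : ℝ) ^ j = 0 := by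
    intro j hj
    rcases Nat.eq_zero_or_pos j with rfl | hj0
    · simpa using hw0
    · obtain ⟨j', rfl⟩ : ∃ j', j = j' + 1 := ⟨j - 1, by omega⟩
      have hj' : j' < d := by have := mem_range.mp hj; omega
      have h1 := congrFun hw1 ⟨j', hj'⟩
      rw [Finset.sum_apply] at h1
      simp only [Pi.smul_apply, smul_eq_mul, Pi.zero_apply] at h1
      rw [← h1]
      refine sum_congr rfl fun k _ => ?_
      rw [← ht k]; rfl
  have h1 : ∑ k ∈ S, w k * Q.eval (t k : ℝ) = 0 := by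
    have h2 : ∀ k ∈ S, w k * Q.eval (t k : ℝ) = ∑ j ∈ range (d + 1), Q.coeff j * (w k * (t k : ℝ) ^ j) := by
      intro k _
      rw [Polynomial.eval_eq_sum_range' hQdeg, mul_sum]
      refine sum_congr rfl fun j _ => ?_
      ring
    rw [sum_congr rfl h2, sum_comm]
    refine sum_eq_zero fun j hj => ?_
    rw [← mul_sum, hpow j hj, mul_zero]
  have h2 : ∀ k ∈ S, k ≠ i → w k * Q.eval (t k : ℝ) = 0 := by
    intro k hk hki
    have : Q.eval (t k : ℝ) = 0 := by
      simp only [Q]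
      rw [Polynomial.eval_prod]
      refine prod_eq_zero (mem_erase.mpr ⟨hki, hk⟩) ?_
      simp
    rw [this, mul_zero]
  rw [sum_eq_single_of_mem i hi h2] at h1
  have h3 : Q.eval (t i : ℝ) ≠ 0 := by
    simp only [Q]
    rw [Polynomial.eval_prod, prod_ne_zero_iff]
    intro k hk
    simp only [Polynomial.eval_sub, Polynomial.eval_X, Polynomial.eval_C]
    rw [sub_ne_zero]
    intro h
    exact (ne_of_mem_erase hk) (htinj _ _ (by exact_mod_cast h)).symm
  exact (mul_eq_zero.mp h1).resolve_right h3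

/-- a hyperplane gives a polynomial of degree at most `d` -/
lemma flat_poly {d : ℕ} (hd : 1 ≤ d) {L : AffineSubspace ℝ (Fin d → ℝ)} (hL : IsFlat (d - 1) L) :
    ∃ P : Polynomial ℝ, P ≠ 0 ∧ P.natDegree ≤ d ∧
      ∀ e : Finset ℕ, ((L : Set (Fin d → ℝ)) ∩ convexHull ℝ ((e.image (fun t : ℕ => mc d t) : Finset _) : Set (Fin d → ℝ))).Nonempty →
        ∃ a ∈ e, ∃ b ∈ e, ∃ z : ℝ, (a : ℝ) ≤ z ∧ z ≤ b ∧ P.eval z = 0 := by
  classical
  obtain ⟨⟨q, hq⟩, hfin⟩ := hL
  have hlt : L.direction < ⊤ := by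
    rw [lt_top_iff_ne_top]
    intro h
    rw [h, finrank_top, Module.finrank_fin_fun] at hfin
    omega
  obtain ⟨φ, hφ0, hφ⟩ := Submodule.exists_le_ker_of_lt_top _ hlt
  let c : Fin d → ℝ := fun j => φ (Pi.single j 1)
  have hφs : ∀ x, φ x = ∑ j, c j * x j := by
    intro x
    have h1 : x = ∑ j, x j • (Pi.single j (1 : ℝ) : Fin d → ℝ) := by
      ext i
      simp [Finset.sum_apply, Pi.single_apply]
    conv_lhs => rw [h1]
    rw [map_sum]
    refine sum_congr rfl fun j _ => ?_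
    rw [map_smul, smul_eq_mul, mul_comm]
  have hc : ∃ j, c j ≠ 0 := by
    by_contra hcon
    push Not at hcon
    apply hφ0
    ext x
    simp [hφs, hcon]
  let P : Polynomial ℝ := (∑ j : Fin d, Polynomial.monomial ((j : ℕ) + 1) (c j)) - Polynomial.C (φ q)
  have hPeval : ∀ t : ℝ, P.eval t = φ (mc d t) - φ q := by
    intro t
    simp only [P, Polynomial.eval_sub, Polynomial.eval_C, Polynomial.eval_finsetSum, Polynomial.eval_monomial]
    rw [hφs (mc d t)]
    rfl
  refine ⟨P, ?_, ?_, ?_⟩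
  · obtain ⟨j, hj⟩ := hc
    intro h0
    have h1 : P.coeff ((j : ℕ) + 1) = c j := by
      simp only [P, Polynomial.coeff_sub, Polynomial.finsetSum_coeff, Polynomial.coeff_monomial]
      rw [sum_eq_single j]
      · simp
      · intro i _ hij
        rw [if_neg]
        intro h
        exact hij (Fin.ext (by omega))
      · intro h; exact absurd (mem_univ _) h
    rw [h0, Polynomial.coeff_zero] at h1
    exact hj h1.symm
  · refine (Polynomial.natDegree_sub_le _ _).trans (max_le ?_ ?_)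
    · refine Polynomial.natDegree_sum_le_of_forall_le _ _ fun j _ => ?_
      exact (Polynomial.natDegree_monomial_le _).trans j.2
    · simp
  · intro e he
    obtain ⟨p, hpL, hp⟩ := he
    obtain ⟨w, hw0, hw1, hw2⟩ := Finset.mem_convexHull'.mp hp
    have hinj : Set.InjOn (fun t : ℕ => mc d t) (e : Set ℕ) := fun s _ t _ h => mc_inj hd h
    rw [sum_image hinj] at hw1 hw2
    have hφp : φ p = φ q := by
      have h1 : p -ᵥ q ∈ L.direction := AffineSubspace.vsub_mem_direction hpL hq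
      have h2 : φ (p -ᵥ q) = 0 := hφ h1
      rw [vsub_eq_sub, map_sub, sub_eq_zero] at h2
      exact h2
    have hsum : ∑ t ∈ e, w (mc d t) * P.eval (t : ℝ) = 0 := by
      have h1 : φ p = ∑ t ∈ e, w (mc d t) * φ (mc d t) := by
        rw [← hw2, map_sum]
        refine sum_congr rfl fun t _ => ?_
        rw [map_smul, smul_eq_mul]
      have h2 : ∑ t ∈ e, w (mc d t) * P.eval (t : ℝ) = ∑ t ∈ e, w (mc d t) * φ (mc d t) - (∑ t ∈ e, w (mc d t)) * φ q := by
        rw [sum_mul, ← sum_sub_distrib]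
        refine sum_congr rfl fun t _ => ?_
        rw [hPeval]; ring
      rw [h2, ← h1, hw1, hφp]; ring
    have hwn : ∀ t ∈ e, 0 ≤ w (mc d t) := fun t ht => hw0 _ (mem_image_of_mem _ ht)
    obtain ⟨t0, ht0, hwt0⟩ : ∃ t ∈ e, 0 < w (mc d t) := by
      by_contra hcon
      push Not at hcon
      have : ∑ t ∈ e, w (mc d t) ≤ 0 := sum_nonpos hcon
      rw [hw1] at this
      linarith
    have h1 : ∃ a ∈ e, P.eval (a : ℝ) ≤ 0 := by
      by_contra hcon
      push Not at hcon
      have : 0 < ∑ t ∈ e, w (mc d t) * P.eval (t : ℝ) :=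
        sum_pos' (fun t ht => mul_nonneg (hwn t ht) (hcon t ht).le) ⟨t0, ht0, mul_pos hwt0 (hcon t0 ht0)⟩
      linarith
    have h2 : ∃ b ∈ e, 0 ≤ P.eval (b : ℝ) := by
      by_contra hcon
      push Not at hcon
      have : ∑ t ∈ e, w (mc d t) * P.eval (t : ℝ) < 0 :=
        sum_neg' (fun t ht => mul_nonpos_of_nonneg_of_nonpos (hwn t ht) (hcon t ht).le)
          ⟨t0, ht0, mul_neg_of_pos_of_neg hwt0 (hcon t0 ht0)⟩
      linarith
    obtain ⟨a, ha, hPa⟩ := h1
    obtain ⟨b, hb, hPb⟩ := h2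
    have h3 := intermediate_value_uIcc (f := fun x => P.eval x) (a := (a : ℝ)) (b := b) P.continuous.continuousOn
    obtain ⟨z, hz, hz0⟩ := h3 (show (0 : ℝ) ∈ Set.uIcc (P.eval (a : ℝ)) (P.eval (b : ℝ)) from
      Set.mem_uIcc.mpr (Or.inl ⟨hPa, hPb⟩))
    rcases Set.mem_uIcc.mp hz with h | h
    · exact ⟨a, ha, b, hb, z, h.1, h.2, hz0⟩
    · exact ⟨b, hb, a, ha, z, h.1, h.2, hz0⟩

end moment

section main
variable {d r m n : ℕ}

lemma met_le (H : GeomHypergraph d r) (L : AffineSubspace ℝ (Fin d → ℝ)) : met H L ≤ H.E.card := by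
  unfold met
  rw [← Set.ncard_coe_finset H.E]
  exact Set.ncard_le_ncard (fun e he => he.1) (Finset.finite_toSet _)

lemma upper (hd : 1 ≤ d) (hr : 2 ≤ r) (hrd : r ≤ d + 1) (hn : 0 < n) (hm : m ≤ n.choose r) :
    ∃ H : GeomHypergraph d r, H.V.card = n ∧ H.E.card = m ∧
      ∀ L, IsFlat (d - 1) L → (met H L : ℝ) ≤ d * (1 + 4 * (r + 1) * r ^ r * ((m : ℝ) / n) ^ ((r : ℝ) / (r - 1))) := by
  classical
  obtain ⟨s, hs0, hs1, hs2⟩ := choose_block hn hr hm
  obtain ⟨E, hEs, hEm⟩ := exists_subset_card_eq hs1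
  have hblk : ∀ e ∈ E, (e ⊆ range n ∧ e.card = r) ∧ ∀ x ∈ e, ∀ y ∈ e, x / s = y / s := by
    intro e he
    have h1 := mem_filter.mp (hEs he)
    exact ⟨mem_powersetCard.mp h1.1, h1.2⟩
  have hinj : Function.Injective (fun t : ℕ => mc d t) := fun a b h => mc_inj hd h
  let H : GeomHypergraph d r :=
    { V := (range n).image (fun t : ℕ => mc d t)
      general := fun S hS hc => moment_aff S (fun y hy => by
        obtain ⟨i, _, hi⟩ := mem_image.mp (hS hy); exact ⟨i, hi⟩) hc.le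
      E := E.image (fun e => e.image (fun t : ℕ => mc d t))
      sub := by
        intro e he
        obtain ⟨e', he', rfl⟩ := mem_image.mp he
        exact image_subset_image (hblk e' he').1.1
      card_edge := by
        intro e he
        obtain ⟨e', he', rfl⟩ := mem_image.mp he
        rw [card_image_of_injective _ hinj, (hblk e' he').1.2]
      simplex := by
        intro e he
        obtain ⟨e', he', rfl⟩ := mem_image.mp he
        refine moment_aff _ (fun y hy => ?_) ?_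
        · obtain ⟨i, _, hi⟩ := mem_image.mp hy; exact ⟨i, hi⟩
        · rw [card_image_of_injective _ hinj, (hblk e' he').1.2]; exact hrd }
  refine ⟨H, ?_, ?_, ?_⟩
  · change ((range n).image (fun t : ℕ => mc d t)).card = n
    rw [card_image_of_injective _ hinj, card_range]
  · change (E.image (fun e => e.image (fun t : ℕ => mc d t))).card = m
    rw [card_image_of_injective _ (Finset.image_injective hinj), hEm]
  intro L hL
  obtain ⟨P, hP0, hPd, hPe⟩ := flat_poly hd hL
  let M : Finset (Finset ℕ) :=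
    E.filter (fun e => ((L : Set (Fin d → ℝ)) ∩ convexHull ℝ ((e.image (fun t : ℕ => mc d t) : Finset _) : Set (Fin d → ℝ))).Nonempty)
  have hmet : met H L ≤ M.card := by
    have h1 : {e : Finset (Fin d → ℝ) | e ∈ H.E ∧ ((L : Set (Fin d → ℝ)) ∩ convexHull ℝ (e : Set (Fin d → ℝ))).Nonempty}
        = ((M.image (fun e => e.image (fun t : ℕ => mc d t)) : Finset _) : Set (Finset (Fin d → ℝ))) := by
      ext e
      constructor
      · intro he
        obtain ⟨e', he', rfl⟩ := mem_image.mp (he.1 : e ∈ E.image (fun e => e.image (fun t : ℕ => mc d t)))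
        exact mem_coe.mpr (mem_image_of_mem _ (mem_filter.mpr ⟨he', he.2⟩))
      · intro he
        obtain ⟨e', he', rfl⟩ := mem_image.mp (mem_coe.mp he)
        exact ⟨mem_image_of_mem _ (mem_filter.mp he').1, (mem_filter.mp he').2⟩
    unfold met
    rw [h1, Set.ncard_coe_finset]
    exact card_image_le
  let bi : Finset ℕ → ℕ := fun e => e.sup id / s
  have hbi : ∀ e ∈ E, ∀ x ∈ e, x / s = bi e := by
    intro e he x hx
    have hne : e.Nonempty := ⟨x, hx⟩
    obtain ⟨y, hy, hy2⟩ := exists_mem_eq_sup e hne id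
    rw [(hblk e he).2 x hx y hy]
    simp only [bi, hy2, id]
  have hfib : ∀ j ∈ M.image bi, (M.filter (fun e => bi e = j)).card ≤ s.choose r := by
    intro j _
    have h1 : M.filter (fun e => bi e = j) ⊆ powersetCard r (Ico (j * s) ((j + 1) * s)) := by
      intro e he
      obtain ⟨heM, hej⟩ := mem_filter.mp he
      have heE := (mem_filter.mp heM).1
      rw [mem_powersetCard]
      refine ⟨fun x hx => ?_, (hblk e heE).1.2⟩
      have h2 := hbi e heE x hx
      rw [hej] at h2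
      rw [mem_Ico]
      have h3 := Nat.div_add_mod x s
      have h4 := Nat.mod_lt x hs0
      rw [h2] at h3
      constructor
      · rw [mul_comm]; omega
      · rw [add_mul, one_mul, mul_comm j s]; omega
    refine (card_le_card h1).trans ?_
    rw [card_powersetCard, Nat.card_Ico, ← Nat.sub_mul]
    simp
  have hcount : M.card ≤ s.choose r * (M.image bi).card := card_le_mul_card_image M _ hfib
  have hJ : (M.image bi).card ≤ d := by
    have h1 : M.image bi ⊆ P.roots.toFinset.image (fun z => ⌊z⌋₊ / s) := by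
      intro j hj
      obtain ⟨e, heM, rfl⟩ := mem_image.mp hj
      have heE := (mem_filter.mp heM).1
      obtain ⟨a, ha, b, hb, z, haz, hzb, hz⟩ := hPe e (mem_filter.mp heM).2
      rw [mem_image]
      refine ⟨z, ?_, ?_⟩
      · rw [Multiset.mem_toFinset, Polynomial.mem_roots hP0]; exact hz
      · have h2 : a ≤ ⌊z⌋₊ := Nat.le_floor haz
        have h3 : ⌊z⌋₊ ≤ b := by
          have := Nat.floor_le_floor hzb
          rwa [Nat.floor_natCast] at this
        have h4 := Nat.div_le_div_right (c := s) h2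
        have h5 := Nat.div_le_div_right (c := s) h3
        rw [hbi e heE a ha] at h4
        rw [hbi e heE b hb] at h5
        exact le_antisymm h5 h4
    refine (card_le_card h1).trans (card_image_le.trans ?_)
    exact (Multiset.toFinset_card_le _).trans ((Polynomial.card_roots' P).trans hPd)
  have h1 : met H L ≤ d * s.choose r := by
    calc met H L ≤ M.card := hmet
      _ ≤ s.choose r * (M.image bi).card := hcount
      _ ≤ s.choose r * d := Nat.mul_le_mul_left _ hJ
      _ = d * s.choose r := mul_comm _ _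
  calc (met H L : ℝ) ≤ d * ((s.choose r : ℕ) : ℝ) := by exact_mod_cast h1
    _ ≤ _ := mul_le_mul_of_nonneg_left hs2 (by positivity)

/-- sorted enumeration of the vertices -/
lemma sorted_enum (hd : 1 ≤ d) (V : Finset (Fin d → ℝ)) (hV : V.card = n) :
    ∃ v : Fin n → Fin d → ℝ, Function.Injective v ∧ (∀ x, x ∈ V ↔ ∃ i, v i = x) ∧
      ∀ i j, i ≤ j → v i ⟨0, hd⟩ ≤ v j ⟨0, hd⟩ := by
  classical
  let g : Fin n ≃ V := (Finset.equivFinOfCardEq hV).symm
  let ψ : Fin n → ℝ := fun i => (g i : Fin d → ℝ) ⟨0, hd⟩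
  refine ⟨fun i => (g (Tuple.sort ψ i) : Fin d → ℝ), ?_, ?_, ?_⟩
  · intro i j h
    exact (Tuple.sort ψ).injective (g.injective (Subtype.ext h))
  · intro x
    constructor
    · intro hx
      refine ⟨(Tuple.sort ψ).symm (g.symm ⟨x, hx⟩), ?_⟩
      simp
    · rintro ⟨i, rfl⟩
      exact (g _).2
  · intro i j hij
    exact Tuple.monotone_sort ψ hij

lemma lower (hd : 1 ≤ d) (hr : 2 ≤ r) (hn : 0 < n) (H : GeomHypergraph d r) (hHn : H.V.card = n) (hHm : H.E.card = m) :
    ∃ L, IsFlat (d - 1) L ∧ ((m : ℝ) / (2 * n)) ^ ((r : ℝ) / (r - 1)) ≤ (met H L : ℝ) := by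
  classical
  obtain ⟨v, hvinj, hvV, hvmono⟩ := sorted_enum hd H.V hHn
  let F : Finset (Fin d → ℝ) → Finset (Fin n) := fun e => univ.filter (fun i => v i ∈ e)
  have hF : ∀ e ∈ H.E, (F e).image v = e := by
    intro e he
    ext x
    simp only [F, mem_image, mem_filter, mem_univ, true_and]
    constructor
    · rintro ⟨i, hi, rfl⟩; exact hi
    · intro hx
      obtain ⟨i, rfl⟩ := (hvV x).mp (H.sub e he hx)
      exact ⟨i, hx, rfl⟩
  let I : Finset (Fin d → ℝ) → Finset ℕ := fun e => (F e).map Fin.valEmbedding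
  have hIinj : Set.InjOn I (H.E : Set (Finset (Fin d → ℝ))) := by
    intro e he e' he' h
    have h1 : F e = F e' := Finset.map_injective _ h
    rw [← hF e he, ← hF e' he', h1]
  obtain ⟨i, hi, hcount⟩ := comb_lower hn hr (H.E.image I) (by
    intro e he
    obtain ⟨e', he', rfl⟩ := mem_image.mp he
    refine ⟨?_, ?_⟩
    · intro x hx
      obtain ⟨j, _, rfl⟩ := mem_map.mp hx
      exact mem_range.mpr j.2
    · rw [card_map, ← card_image_of_injective (F e') hvinj, hF e' he', H.card_edge e' he'])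
    (by rw [card_image_of_injOn hIinj, hHm])
  rw [mem_range] at hi
  -- the hyperplane
  let pr : (Fin d → ℝ) →ₗ[ℝ] ℝ := LinearMap.proj ⟨0, hd⟩
  let L : AffineSubspace ℝ (Fin d → ℝ) := AffineSubspace.mk' (v ⟨i, hi⟩) (LinearMap.ker pr)
  have hmemL : ∀ x, x ∈ L ↔ x ⟨0, hd⟩ = v ⟨i, hi⟩ ⟨0, hd⟩ := by
    intro x
    rw [AffineSubspace.mem_mk', LinearMap.mem_ker, vsub_eq_sub, map_sub, sub_eq_zero]
    rfl
  have hLflat : IsFlat (d - 1) L := by
    refine ⟨⟨v ⟨i, hi⟩, AffineSubspace.self_mem_mk' _ _⟩, ?_⟩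
    rw [AffineSubspace.direction_mk']
    have h1 := LinearMap.finrank_range_add_finrank_ker pr
    have h2 : LinearMap.range pr = ⊤ := by
      rw [LinearMap.range_eq_top]
      intro c
      exact ⟨fun _ => c, rfl⟩
    rw [h2, finrank_top, Module.finrank_self, Module.finrank_fin_fun] at h1
    omega
  refine ⟨L, hLflat, hcount.trans ?_⟩
  have h1 : ((H.E.image I).filter (fun e => ∃ a ∈ e, ∃ b ∈ e, a ≤ i ∧ i ≤ b)).card ≤ met H L := by
    have h2 : (H.E.image I).filter (fun e => ∃ a ∈ e, ∃ b ∈ e, a ≤ i ∧ i ≤ b)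
        ⊆ (H.E.filter (fun e => ∃ a ∈ I e, ∃ b ∈ I e, a ≤ i ∧ i ≤ b)).image I := by
      intro e he
      obtain ⟨he1, he2⟩ := mem_filter.mp he
      obtain ⟨e', he', rfl⟩ := mem_image.mp he1
      exact mem_image_of_mem _ (mem_filter.mpr ⟨he', he2⟩)
    refine (card_le_card h2).trans (card_image_le.trans ?_)
    unfold met
    rw [← Set.ncard_coe_finset]
    refine Set.ncard_le_ncard ?_ ((Finset.finite_toSet H.E).subset fun e he => he.1)
    intro e he
    obtain ⟨heE, a, ha, b, hb, hai, hib⟩ := mem_filter.mp (mem_coe.mp he)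
    refine ⟨heE, ?_⟩
    obtain ⟨a', ha', rfl⟩ := mem_map.mp ha
    obtain ⟨b', hb', rfl⟩ := mem_map.mp hb
    have hae : v a' ∈ e := (mem_filter.mp ha').2
    have hbe : v b' ∈ e := (mem_filter.mp hb').2
    have hc : IsPreconnected (convexHull ℝ (e : Set (Fin d → ℝ))) := (convex_convexHull ℝ _).isPreconnected
    have hcont : ContinuousOn (fun x : Fin d → ℝ => x ⟨0, hd⟩) (convexHull ℝ (e : Set (Fin d → ℝ))) :=
      (continuous_apply _).continuousOn
    have h3 := hc.intermediate_value (subset_convexHull ℝ _ hae) (subset_convexHull ℝ _ hbe) hcont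
    obtain ⟨x, hx, hx2⟩ := h3 (show v ⟨i, hi⟩ ⟨0, hd⟩ ∈ Set.Icc (v a' ⟨0, hd⟩) (v b' ⟨0, hd⟩) from
      ⟨hvmono _ _ hai, hvmono _ _ hib⟩)
    exact ⟨x, (hmemL x).mpr hx2, hx⟩
  exact_mod_cast h1

lemma lower_one (hd : 1 ≤ d) (hr : 2 ≤ r) (H : GeomHypergraph d r) (hHm : H.E.card = m) (hm : 1 ≤ m) :
    ∃ L, IsFlat (d - 1) L ∧ 1 ≤ met H L := by
  classical
  obtain ⟨e, he⟩ : H.E.Nonempty := by rw [← card_pos]; omega
  obtain ⟨x, hx⟩ : e.Nonempty := by rw [← card_pos, H.card_edge e he]; omega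
  let pr : (Fin d → ℝ) →ₗ[ℝ] ℝ := LinearMap.proj ⟨0, hd⟩
  let L : AffineSubspace ℝ (Fin d → ℝ) := AffineSubspace.mk' x (LinearMap.ker pr)
  refine ⟨L, ⟨⟨x, AffineSubspace.self_mem_mk' _ _⟩, ?_⟩, ?_⟩
  · rw [AffineSubspace.direction_mk']
    have h1 := LinearMap.finrank_range_add_finrank_ker pr
    have h2 : LinearMap.range pr = ⊤ := by
      rw [LinearMap.range_eq_top]
      intro c
      exact ⟨fun _ => c, rfl⟩
    rw [h2, finrank_top, Module.finrank_self, Module.finrank_fin_fun] at h1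
    omega
  · unfold met
    exact (Set.ncard_pos ((Finset.finite_toSet H.E).subset fun e he => he.1)).mpr
      ⟨e, he, x, AffineSubspace.self_mem_mk' _ _, subset_convexHull ℝ _ hx⟩

/-- For hyperplanes (`k = d - 1`) the order of magnitude of `f` is `1 + (m/n)^{r/(r-1)}`. -/
theorem result :
    ∀ d r : ℕ, 1 ≤ d → 2 ≤ r → r ≤ d + 1 → ∀ m n : ℕ, 1 ≤ m → m ≤ n.choose r →
      1 ≤ f d r (d - 1) m n ∧
      ((m : ℝ) / (2 * n)) ^ ((r : ℝ) / (r - 1)) ≤ f d r (d - 1) m n ∧
      (f d r (d - 1) m n : ℝ) ≤ d * (1 + 4 * (r + 1) * r ^ r * ((m : ℝ) / n) ^ ((r : ℝ) / (r - 1))) := by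
  intro d r hd hr hrd m n hm1 hm
  have hn : 0 < n := by
    rcases Nat.eq_zero_or_pos n with rfl | h
    · rw [Nat.choose_eq_zero_of_lt (by omega)] at hm; omega
    · exact h
  obtain ⟨H, hHn, hHm, hH⟩ := upper hd hr hrd hn hm
  have hbdd : BddAbove {t : ℕ | ∀ H : GeomHypergraph d r, H.V.card = n → H.E.card = m →
      ∃ L, IsFlat (d - 1) L ∧ t ≤ met H L} := by
    refine ⟨m, fun t ht => ?_⟩
    obtain ⟨L, _, h⟩ := ht H hHn hHm
    exact h.trans (hHm ▸ met_le H L)
  refine ⟨?_, ?_, ?_⟩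
  · refine le_csSup hbdd ?_
    intro H' _ hm'
    exact lower_one hd hr H' hm' hm1
  · have h1 : ⌈((m : ℝ) / (2 * n)) ^ ((r : ℝ) / (r - 1))⌉₊ ≤ f d r (d - 1) m n := by
      refine le_csSup hbdd ?_
      intro H' hn' hm'
      obtain ⟨L, hL, h⟩ := lower hd hr hn H' hn' hm'
      exact ⟨L, hL, Nat.ceil_le.mpr h⟩
    exact Nat.ceil_le.mp h1
  · have h1 : f d r (d - 1) m n ∈ {t : ℕ | ∀ H : GeomHypergraph d r, H.V.card = n → H.E.card = m →
        ∃ L, IsFlat (d - 1) L ∧ t ≤ met H L} := by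
      refine Nat.sSup_mem ⟨0, ?_⟩ hbdd
      intro H' hn' hm'
      obtain ⟨L, hL, _⟩ := lower_one hd hr H' hm' hm1
      exact ⟨L, hL, Nat.zero_le _⟩
    obtain ⟨L, hL, h2⟩ := h1 H hHn hHm
    have h3 : (f d r (d - 1) m n : ℝ) ≤ met H L := by exact_mod_cast h2
    exact h3.trans (hH L hL)

end main

end Pool.Agent.Results.MP_737bdd_co.Hyperplanes
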