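import Mathlib

set_option autoImplicit false

namespace Pool.Agent.Results.MP_737bdd_co.LinearRange

open Finset

lemma exists_algInd (ι : Type) [Fintype ι] : ∃ x : ι → ℝ, AlgebraicIndependent ℚ x := by
  obtain ⟨s, hs⟩ := exists_isTranscendenceBasis ℚ ℝ
  have hinf : s.Infinite := by
    intro hfin
    have hc : s.Countable := hfin.countable
    have halg : Algebra.IsAlgebraic (Algebra.adjoin ℚ (Set.range ((↑) : s → ℝ))) ℝ := hs.isAlgebraic
    have h1 := Algebra.IsAlgebraic.cardinalMk_le_max (Algebra.adjoin ℚ (Set.range ((↑) : s → ℝ))) ℝ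
    have h2 : Cardinal.mk (Algebra.adjoin ℚ (Set.range ((↑) : s → ℝ))) ≤ Cardinal.aleph0 := by
      refine (Algebra.cardinalMk_adjoin_le ℚ _).trans ?_
      simp only [Subtype.range_coe_subtype, Set.ofPred_mem_eq]
      simp [hc]
    have h3 : Cardinal.mk ℝ ≤ Cardinal.aleph0 := h1.trans (by simpa using h2)
    rw [Cardinal.mk_real] at h3
    exact absurd h3 (not_le.mpr Cardinal.aleph0_lt_continuum)
  have : Infinite s := hinf.to_subtype
  obtain ⟨f⟩ : Nonempty (ι ↪ s) := by
    have hι : Cardinal.mk ι ≤ Cardinal.mk s := (Cardinal.mk_le_aleph0 (α := ι)).trans (Cardinal.aleph0_le_mk s)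
    exact (Cardinal.le_def ι s).mp hι
  exact ⟨fun i => (f i : ℝ), hs.1.comp f f.injective⟩

lemma card_le_of_mem_adjoin {ι κ : Type} [Fintype ι] [Fintype κ] {x : ι → ℝ}
    (hx : AlgebraicIndependent ℚ x) {θ : κ → ℝ} (h : ∀ i, x i ∈ Algebra.adjoin ℚ (Set.range θ)) :
    Fintype.card ι ≤ Fintype.card κ := by
  let A := Algebra.adjoin ℚ (Set.range θ)
  let y : ι → A := fun i => ⟨x i, h i⟩
  have hy : AlgebraicIndependent ℚ y := by
    have : AlgebraicIndependent ℚ (A.val ∘ y) := hx
    exact AlgebraicIndependent.of_comp A.val this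
  have h1 := hy.cardinalMk_le_trdeg
  have hsurj : Function.Surjective ((MvPolynomial.aeval θ : MvPolynomial κ ℚ →ₐ[ℚ] ℝ).rangeRestrict) :=
    AlgHom.rangeRestrict_surjective _
  have h2 := trdeg_le_of_surjective _ hsurj
  have h3 : Algebra.trdeg ℚ (MvPolynomial.aeval θ : MvPolynomial κ ℚ →ₐ[ℚ] ℝ).range = Algebra.trdeg ℚ A := by
    have : (MvPolynomial.aeval θ : MvPolynomial κ ℚ →ₐ[ℚ] ℝ).range = A :=
      (Algebra.adjoin_range_eq_range_aeval ℚ θ).symm
    rw [this]
  rw [h3, MvPolynomial.trdeg_of_isDomain] at h2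
  have h4 := h1.trans h2
  simpa using h4

lemma flat_param {d k : ℕ} {L : AffineSubspace ℝ (Fin d → ℝ)} (hne : (L : Set (Fin d → ℝ)).Nonempty)
    (hk : Module.finrank ℝ L.direction = k) :
    ∃ (q : Fin d → ℝ) (u : Fin k → Fin d → ℝ), ∀ p ∈ L, ∃ c : Fin k → ℝ, p = q + ∑ t, c t • u t := by
  obtain ⟨q, hq⟩ := hne
  let b := Module.finBasisOfFinrankEq ℝ L.direction hk
  refine ⟨q, fun t => (b t : Fin d → ℝ), fun p hp => ?_⟩
  have hd : p -ᵥ q ∈ L.direction := AffineSubspace.vsub_mem_direction hp hq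
  refine ⟨b.repr ⟨p -ᵥ q, hd⟩, ?_⟩
  have h1 : ((∑ t, (b.repr ⟨p -ᵥ q, hd⟩) t • b t : L.direction) : Fin d → ℝ) = p -ᵥ q :=
    congrArg Subtype.val (b.sum_repr ⟨p -ᵥ q, hd⟩)
  have h2 : ((∑ t, (b.repr ⟨p -ᵥ q, hd⟩) t • b t : L.direction) : Fin d → ℝ)
      = ∑ t, (b.repr ⟨p -ᵥ q, hd⟩) t • ((b t : L.direction) : Fin d → ℝ) := by
    rw [AddSubmonoidClass.coe_finsetSum]; rfl
  have h3 : p = q + (p -ᵥ q) := by rw [vsub_eq_sub]; abel
  rw [h2] at h1
  rw [h1]; exact h3

variable {σ : Type}

/-- `T` pairwise disjoint simplices with generic vertices, all met by one `k`-flat: then `T ≤ (k+1) d`. -/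
lemma generic_flat {d k r T : ℕ} (hrk : r + 1 + k ≤ d) {v : σ → Fin d → ℝ}
    (hv : AlgebraicIndependent ℚ (fun p : σ × Fin d => v p.1 p.2))
    (A : Fin T → Finset σ) (hA : ∀ i, (A i).card = r + 1) (hdis : ∀ i j, i ≠ j → Disjoint (A i) (A j))
    {L : AffineSubspace ℝ (Fin d → ℝ)} (hne : (L : Set (Fin d → ℝ)).Nonempty)
    (hk : Module.finrank ℝ L.direction = k)
    (hmeet : ∀ i, ((L : Set (Fin d → ℝ)) ∩ convexHull ℝ (((A i).image v : Finset _) : Set (Fin d → ℝ))).Nonempty) :
    T ≤ (k + 1) * d := by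
  classical
  rcases Nat.eq_zero_or_pos d with rfl | hd
  · omega
  obtain ⟨q, u, hqu⟩ := flat_param hne hk
  have hvinj : Function.Injective v := by
    intro x y hxy
    have : ((x, (⟨0, hd⟩ : Fin d)) : σ × Fin d) = (y, ⟨0, hd⟩) := hv.injective (by simp [hxy])
    exact congrArg Prod.fst this
  -- choose coordinates
  have key : ∀ i, ∃ (b : Fin (r + 1) → σ) (c : Fin k → ℝ) (μ : Fin r → ℝ), (∀ t, b t ∈ A i) ∧ Function.Injective b ∧
      ∀ e, v (b 0) e = (q e + ∑ t, c t * u t e) + ∑ t : Fin r, μ t * (v (b t.succ) e - (q e + ∑ t, c t * u t e)) := by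
    intro i
    obtain ⟨p, hpL, hp⟩ := hmeet i
    obtain ⟨c, hc⟩ := hqu p hpL
    obtain ⟨w, hw0, hw1, hw2⟩ := Finset.mem_convexHull'.mp hp
    let en : Fin (r + 1) ≃ A i := (Finset.equivFinOfCardEq (hA i)).symm
    have hsum1 : ∑ t, w (v (en t)) = 1 := by
      rw [← hw1, Finset.sum_image (fun x _ y _ h => hvinj h), ← Finset.sum_coe_sort (A i) (fun x => w (v x))]
      exact Equiv.sum_comp en (fun x : A i => w (v x))
    have hsum2 : ∑ t, w (v (en t)) • v (en t) = p := by
      rw [← hw2, Finset.sum_image (fun x _ y _ h => hvinj h), ← Finset.sum_coe_sort (A i) (fun x => w (v x) • v x)]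
      exact Equiv.sum_comp en (fun x : A i => w (v x) • v x)
    obtain ⟨s, hs⟩ : ∃ s, w (v (en s)) ≠ 0 := by
      by_contra hcon
      push Not at hcon
      simp [hcon] at hsum1
    let τ : Equiv.Perm (Fin (r + 1)) := Equiv.swap 0 s
    let b : Fin (r + 1) → σ := fun t => (en (τ t) : σ)
    have hb1 : ∑ t, w (v (b t)) = 1 := by
      rw [← hsum1]; exact Equiv.sum_comp τ (fun t => w (v (en t)))
    have hb2 : ∑ t, w (v (b t)) • v (b t) = p := by
      rw [← hsum2]; exact Equiv.sum_comp τ (fun t => w (v (en t)) • v (en t))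
    have hb0 : w (v (b 0)) ≠ 0 := by
      have : b 0 = en s := by simp [b, τ]
      rw [this]; exact hs
    refine ⟨b, c, fun t => - w (v (b t.succ)) / w (v (b 0)), fun t => (en (τ t)).2, ?_, ?_⟩
    · intro t t' h
      exact τ.injective (en.injective (Subtype.ext h))
    · intro e
      have hpe : q e + ∑ t, c t * u t e = p e := by
        rw [hc]; simp [Finset.sum_apply]
      rw [hpe]
      have h2 := congrFun hb2 e
      rw [Finset.sum_apply, Fin.sum_univ_succ] at h2
      rw [Fin.sum_univ_succ] at hb1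
      simp only [Pi.smul_apply, smul_eq_mul] at h2
      have h3 : ∑ t : Fin r, -w (v (b t.succ)) / w (v (b 0)) * (v (b t.succ) e - p e)
          = (-(∑ t : Fin r, w (v (b t.succ)) * v (b t.succ) e) + (∑ t : Fin r, w (v (b t.succ))) * p e) / w (v (b 0)) := by
        rw [Finset.sum_mul, ← Finset.sum_neg_distrib, ← Finset.sum_add_distrib, Finset.sum_div]
        refine Finset.sum_congr rfl fun t _ => ?_
        field_simp
        ring
      rw [h3]
      have h4 : ∑ t : Fin r, w (v (b t.succ)) = 1 - w (v (b 0)) := by linarith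
      have h5 : ∑ t : Fin r, w (v (b t.succ)) * v (b t.succ) e = p e - w (v (b 0)) * v (b 0) e := by linarith
      rw [h4, h5]
      field_simp
      ring
  choose b c μ hbA hbinj hb using key
  -- the generic family
  let x : Fin T × Fin (r + 1) × Fin d → ℝ := fun z => v (b z.1 z.2.1) z.2.2
  have hx : AlgebraicIndependent ℚ x := by
    have hinj : Function.Injective (fun z : Fin T × Fin (r + 1) × Fin d => ((b z.1 z.2.1, z.2.2) : σ × Fin d)) := by
      rintro ⟨i, t, e⟩ ⟨i', t', e'⟩ h
      simp only [Prod.mk.injEq] at h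
      obtain ⟨h1, h2⟩ := h
      have hi : i = i' := by
        by_contra hne'
        have := Finset.disjoint_left.mp (hdis i i' hne') (hbA i t)
        exact this (h1 ▸ hbA i' t')
      subst hi
      rw [hbinj i h1, h2]
    have hcomp := hv.comp _ hinj
    exact hcomp
  -- parameters
  let θ : (Fin T × Fin r × Fin d) ⊕ (Fin d) ⊕ (Fin k × Fin d) ⊕ (Fin T × Fin k) ⊕ (Fin T × Fin r) → ℝ :=
    Sum.elim (fun z => v (b z.1 z.2.1.succ) z.2.2) (Sum.elim q (Sum.elim (fun z => u z.1 z.2)
      (Sum.elim (fun z => c z.1 z.2) (fun z => μ z.1 z.2))))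
  have hθ : ∀ z, θ z ∈ Algebra.adjoin ℚ (Set.range θ) := fun z => Algebra.subset_adjoin ⟨z, rfl⟩
  have hmem : ∀ z, x z ∈ Algebra.adjoin ℚ (Set.range θ) := by
    rintro ⟨i, t, e⟩
    have hsucc : ∀ (t : Fin r) (e : Fin d), v (b i t.succ) e ∈ Algebra.adjoin ℚ (Set.range θ) :=
      fun t e => hθ (Sum.inl (i, t, e))
    have hq : q e ∈ Algebra.adjoin ℚ (Set.range θ) := hθ (Sum.inr (Sum.inl e))
    have hu : ∀ t : Fin k, u t e ∈ Algebra.adjoin ℚ (Set.range θ) := fun t => hθ (Sum.inr (Sum.inr (Sum.inl (t, e))))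
    have hc' : ∀ t : Fin k, c i t ∈ Algebra.adjoin ℚ (Set.range θ) :=
      fun t => hθ (Sum.inr (Sum.inr (Sum.inr (Sum.inl (i, t)))))
    have hμ : ∀ t : Fin r, μ i t ∈ Algebra.adjoin ℚ (Set.range θ) :=
      fun t => hθ (Sum.inr (Sum.inr (Sum.inr (Sum.inr (i, t)))))
    refine Fin.cases ?_ (fun t => hsucc t e) t
    change v (b i 0) e ∈ _
    rw [hb i e]
    have hp : q e + ∑ t, c i t * u t e ∈ Algebra.adjoin ℚ (Set.range θ) :=
      add_mem hq (sum_mem fun t _ => mul_mem (hc' t) (hu t))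
    exact add_mem hp (sum_mem fun t _ => mul_mem (hμ t) (sub_mem (hsucc t e) hp))
  have hcard := card_le_of_mem_adjoin hx hmem
  simp only [Fintype.card_prod, Fintype.card_sum, Fintype.card_fin] at hcard
  -- T (r+1) d ≤ T r d + d + k d + T k + T r
  obtain ⟨j, hj⟩ : ∃ j, d = r + 1 + k + j := ⟨d - (r + 1 + k), by omega⟩
  have h1 : T * ((r + 1) * d) = T * (r * d) + T * d := by ring
  have h2 : T * d ≤ d + (k * d + (T * k + T * r)) := by omega
  have h3 : T * d = T * r + T + T * k + T * j := by rw [hj]; ring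
  have h4 : T + T * j ≤ d + k * d := by omega
  have h5 : (k + 1) * d = d + k * d := by ring
  rw [h5]
  exact le_trans (Nat.le_add_right _ _) h4
section regular
variable {n : ℕ}

/-- translate of a set of residues -/
def tr (t : ZMod n) (e : Finset (ZMod n)) : Finset (ZMod n) := e.image (· + t)

lemma mem_tr {t : ZMod n} {e : Finset (ZMod n)} {x : ZMod n} : x ∈ tr t e ↔ x - t ∈ e := by
  simp only [tr, mem_image]
  constructor
  · rintro ⟨y, hy, rfl⟩; simpa using hy
  · intro h; exact ⟨x - t, h, by simp⟩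

lemma tr_tr (s t : ZMod n) (e : Finset (ZMod n)) : tr s (tr t e) = tr (t + s) e := by
  ext x
  simp only [mem_tr]
  rw [show x - s - t = x - (t + s) by ring]

lemma card_tr (t : ZMod n) (e : Finset (ZMod n)) : (tr t e).card = e.card :=
  card_image_of_injective _ (add_left_injective t)

lemma tr_zero (e : Finset (ZMod n)) : tr 0 e = e := by
  ext x; simp [mem_tr]

lemma deg_closed [NeZero n] {r : ℕ} {G : Finset (Finset (ZMod n))} (hr : ∀ e ∈ G, e.card = r)
    (hcl : ∀ e ∈ G, ∀ t, tr t e ∈ G) (x : ZMod n) : (G.filter (x ∈ ·)).card * n = r * G.card := by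
  have heq : ∀ y, (G.filter (y ∈ ·)).card = (G.filter (x ∈ ·)).card := by
    intro y
    refine card_nbij' (tr (x - y)) (tr (y - x)) ?_ ?_ ?_ ?_
    · intro e he
      simp only [coe_filter, Set.mem_ofPred_eq] at he ⊢
      exact ⟨hcl e he.1 _, by rw [mem_tr]; simpa using he.2⟩
    · intro e he
      simp only [coe_filter, Set.mem_ofPred_eq] at he ⊢
      exact ⟨hcl e he.1 _, by rw [mem_tr]; simpa using he.2⟩
    · intro e _
      rw [tr_tr, show x - y + (y - x) = 0 by ring, tr_zero]
    · intro e _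
      rw [tr_tr, show y - x + (x - y) = 0 by ring, tr_zero]
  have h1 : ∑ y : ZMod n, (G.filter (y ∈ ·)).card = ∑ e ∈ G, e.card := by
    simp only [card_filter]
    rw [sum_comm]
    refine sum_congr rfl fun e _ => ?_
    rw [← card_filter]
    congr 1
    ext y; simp
  rw [sum_congr rfl (fun y _ => heq y), sum_congr rfl hr] at h1
  simp only [sum_const, card_univ, ZMod.card, smul_eq_mul] at h1
  rw [mul_comm, h1, mul_comm]

lemma near_regular [NeZero n] {r m : ℕ} (hm : m ≤ n.choose r) :
    ∃ E : Finset (Finset (ZMod n)), (∀ e ∈ E, e.card = r) ∧ E.card = m ∧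
      ∀ x, (E.filter (x ∈ ·)).card * n ≤ r * (m + n) := by
  classical
  let P : Finset (Finset (ZMod n)) := powersetCard r univ
  have hP : P.card = n.choose r := by simp [P, card_powersetCard, ZMod.card]
  let S : Finset (Finset (Finset (ZMod n))) :=
    P.powerset.filter (fun G => (∀ e ∈ G, ∀ t, tr t e ∈ G) ∧ G.card ≤ m)
  have hS : S.Nonempty := ⟨∅, by simp [S]⟩
  obtain ⟨F, hF, hmax⟩ := exists_max_image S card hS
  simp only [S, mem_filter, mem_powerset] at hF
  obtain ⟨hFP, hFcl, hFm⟩ := hF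
  have hFr : ∀ e ∈ F, e.card = r := fun e he => (mem_powersetCard.mp (hFP he)).2
  rcases hFm.eq_or_lt with heq | hlt
  · refine ⟨F, hFr, heq, fun x => ?_⟩
    rw [deg_closed hFr hFcl x, heq]
    exact Nat.mul_le_mul_left _ (Nat.le_add_right _ _)
  · have hex : ∃ e ∈ P, e ∉ F := by
      by_contra hcon
      push Not at hcon
      have : P.card ≤ F.card := card_le_card hcon
      omega
    obtain ⟨e, heP, heF⟩ := hex
    have her : e.card = r := (mem_powersetCard.mp heP).2
    let O : Finset (Finset (ZMod n)) := univ.image (fun t => tr t e)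
    have hOn : O.card ≤ n := by
      refine card_image_le.trans ?_
      simp [ZMod.card]
    let G := F ∪ O
    have hGr : ∀ f ∈ G, f.card = r := by
      intro f hf
      rcases mem_union.mp hf with h | h
      · exact hFr f h
      · obtain ⟨t, _, rfl⟩ := mem_image.mp h
        rw [card_tr, her]
    have hGcl : ∀ f ∈ G, ∀ t, tr t f ∈ G := by
      intro f hf t
      rcases mem_union.mp hf with h | h
      · exact mem_union_left _ (hFcl f h t)
      · obtain ⟨s, _, rfl⟩ := mem_image.mp h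
        exact mem_union_right _ (mem_image.mpr ⟨s + t, mem_univ _, (tr_tr t s e).symm⟩)
    have heG : e ∈ G := mem_union_right _ (mem_image.mpr ⟨0, mem_univ _, tr_zero e⟩)
    have hFG : F ⊆ G := subset_union_left
    have hlt2 : F.card < G.card := card_lt_card ⟨hFG, fun h => heF (h heG)⟩
    have hGm : m ≤ G.card := by
      by_contra hcon
      push Not at hcon
      have hGS : G ∈ S := by
        simp only [S, mem_filter, mem_powerset]
        refine ⟨fun f hf => mem_powersetCard.mpr ⟨subset_univ _, hGr f hf⟩, hGcl, hcon.le⟩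
      have := hmax G hGS
      omega
    obtain ⟨E, hFE, hEG, hE⟩ := exists_subsuperset_card_eq hFG hFm hGm
    refine ⟨E, fun f hf => hGr f (hEG hf), hE, fun x => ?_⟩
    have h1 : (E.filter (x ∈ ·)).card ≤ (G.filter (x ∈ ·)).card := card_le_card (filter_subset_filter _ hEG)
    have h2 : G.card ≤ m + n := (card_union_le _ _).trans (add_le_add hFm hOn)
    calc (E.filter (x ∈ ·)).card * n ≤ (G.filter (x ∈ ·)).card * n := Nat.mul_le_mul_right _ h1
      _ = r * G.card := deg_closed hGr hGcl x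
      _ ≤ r * (m + n) := Nat.mul_le_mul_left _ h2

end regular

section generic
variable {σ : Type}

lemma generic_aff {d m : ℕ} (hm : m ≤ d) {v : Fin (m + 1) → Fin d → ℝ}
    (hv : AlgebraicIndependent ℚ (fun p : Fin (m + 1) × Fin d => v p.1 p.2)) : AffineIndependent ℝ v := by
  classical
  rw [affineIndependent_iff]
  intro s w hw0 hw1 i hi
  by_contra hne
  let W : Fin (m + 1) → ℝ := fun t => if t ∈ s then w t else 0
  have hW0 : ∑ t, W t = 0 := by simp [W, hw0]
  have hW1 : ∑ t, W t • v t = 0 := by simp [W, ite_smul, hw1]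
  have hWi : W i ≠ 0 := by simpa [W, hi] using hne
  let τ : Equiv.Perm (Fin (m + 1)) := Equiv.swap 0 i
  have h0 : ∑ t, W (τ t) = 0 := by rw [← hW0]; exact Equiv.sum_comp τ W
  have h1 : ∑ t, W (τ t) • v (τ t) = 0 := by rw [← hW1]; exact Equiv.sum_comp τ (fun t => W t • v t)
  have hτ0 : W (τ 0) ≠ 0 := by simpa [τ] using hWi
  rcases m with _ | m
  · rw [Fin.sum_univ_one] at h0
    exact hτ0 h0
  let μ : Fin (m + 1) → ℝ := fun t => - W (τ t.succ) / W (τ 0)
  have hμ1 : ∑ t, μ t = 1 := by
    rw [Fin.sum_univ_succ] at h0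
    have : ∑ t, μ t = -(∑ t : Fin (m + 1), W (τ t.succ)) / W (τ 0) := by
      rw [← Finset.sum_neg_distrib, Finset.sum_div]
    rw [this, show ∑ t : Fin (m + 1), W (τ t.succ) = - W (τ 0) by linarith, neg_neg, div_self hτ0]
  have hμ2 : ∀ e, v (τ 0) e = ∑ t, μ t * v (τ t.succ) e := by
    intro e
    have h2 := congrFun h1 e
    rw [Finset.sum_apply, Fin.sum_univ_succ] at h2
    simp only [Pi.smul_apply, smul_eq_mul, Pi.zero_apply] at h2
    have : ∑ t, μ t * v (τ t.succ) e = -(∑ t : Fin (m + 1), W (τ t.succ) * v (τ t.succ) e) / W (τ 0) := by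
      rw [← Finset.sum_neg_distrib, Finset.sum_div]
      refine Finset.sum_congr rfl fun t _ => ?_
      simp only [μ]; ring
    rw [this, eq_div_iff hτ0]; linarith
  let x : Fin (m + 1 + 1) × Fin d → ℝ := fun z => v (τ z.1) z.2
  have hx : AlgebraicIndependent ℚ x := by
    have hinj : Function.Injective (fun z : Fin (m + 1 + 1) × Fin d => ((τ z.1, z.2) : Fin (m + 1 + 1) × Fin d)) := by
      rintro ⟨a, b⟩ ⟨a', b'⟩ h
      simp only [Prod.mk.injEq] at h
      rw [τ.injective h.1, h.2]
    have hcomp := hv.comp _ hinj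
    exact hcomp
  let θ : (Fin (m + 1) × Fin d) ⊕ (Fin m) → ℝ := Sum.elim (fun z => v (τ z.1.succ) z.2) (fun t => μ t.castSucc)
  have hθ : ∀ z, θ z ∈ Algebra.adjoin ℚ (Set.range θ) := fun z => Algebra.subset_adjoin ⟨z, rfl⟩
  have hmem : ∀ z, x z ∈ Algebra.adjoin ℚ (Set.range θ) := by
    rintro ⟨t, e⟩
    have hsucc : ∀ (t : Fin (m + 1)) (e : Fin d), v (τ t.succ) e ∈ Algebra.adjoin ℚ (Set.range θ) :=
      fun t e => hθ (Sum.inl (t, e))
    have hμc : ∀ t : Fin m, μ t.castSucc ∈ Algebra.adjoin ℚ (Set.range θ) := fun t => hθ (Sum.inr t)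
    have hμl : μ (Fin.last m) ∈ Algebra.adjoin ℚ (Set.range θ) := by
      rw [Fin.sum_univ_castSucc] at hμ1
      rw [show μ (Fin.last m) = 1 - ∑ t : Fin m, μ t.castSucc by linarith]
      exact sub_mem (one_mem _) (sum_mem fun t _ => hμc t)
    have hμ : ∀ t, μ t ∈ Algebra.adjoin ℚ (Set.range θ) := fun t => Fin.lastCases hμl hμc t
    refine Fin.cases ?_ (fun t => hsucc t e) t
    change v (τ 0) e ∈ _
    rw [hμ2]
    exact sum_mem fun t _ => mul_mem (hμ t) (hsucc t e)
  have hcard := card_le_of_mem_adjoin hx hmem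
  simp only [Fintype.card_prod, Fintype.card_sum, Fintype.card_fin] at hcard
  have h3 : (m + 1 + 1) * d = (m + 1) * d + d := by ring
  omega

lemma generic_indep {d : ℕ} {v : σ → Fin d → ℝ} (hv : AlgebraicIndependent ℚ (fun p : σ × Fin d => v p.1 p.2))
    (s : Finset (Fin d → ℝ)) (hs : ∀ x ∈ s, ∃ i, v i = x) (hc : s.card ≤ d + 1) :
    AffineIndependent ℝ (fun x : s => (x : Fin d → ℝ)) := by
  classical
  rcases Nat.eq_zero_or_pos s.card with h0 | hpos
  · have : IsEmpty s := by
      rw [Finset.card_eq_zero] at h0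
      subst h0
      exact ⟨fun x => absurd x.2 (Finset.notMem_empty _)⟩
    exact affineIndependent_of_subsingleton ℝ _
  obtain ⟨m, hm⟩ : ∃ m, s.card = m + 1 := ⟨s.card - 1, by omega⟩
  let en : Fin (m + 1) ≃ s := (Finset.equivFinOfCardEq hm).symm
  choose g hg using fun x : s => hs x.1 x.2
  have hinj : Function.Injective (fun z : Fin (m + 1) × Fin d => ((g (en z.1), z.2) : σ × Fin d)) := by
    rintro ⟨a, b⟩ ⟨a', b'⟩ h
    simp only [Prod.mk.injEq] at h
    have : (en a : Fin d → ℝ) = en a' := by rw [← hg (en a), ← hg (en a'), h.1]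
    rw [en.injective (Subtype.ext this), h.2]
  have hcomp := hv.comp _ hinj
  have h1 : AffineIndependent ℝ (fun t => v (g (en t))) := by
    refine generic_aff (v := fun t => v (g (en t))) (by omega) ?_
    exact hcomp
  have h2 : (fun t => v (g (en t))) = (fun x : s => (x : Fin d → ℝ)) ∘ en := by
    funext t
    exact hg (en t)
  rw [h2] at h1
  exact (affineIndependent_equiv en).mp h1

end generic

/-- A `d`-dimensional geometric `r`-hypergraph: a finite set `V` of points of `ℝ^d`, no `d + 1` of them on a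
common hyperplane (every `d + 1` of them are affinely independent), and a finite set `E` of edges, each of them
a set of `r` affinely independent points of `V` (the vertices of a closed `(r - 1)`-dimensional simplex). -/
structure GeomHypergraph (d r : ℕ) where
  V : Finset (Fin d → ℝ)
  general : ∀ s ⊆ V, s.card = d + 1 → AffineIndependent ℝ (fun x : s => (x : Fin d → ℝ))
  E : Finset (Finset (Fin d → ℝ))
  sub : ∀ e ∈ E, e ⊆ V
  card_edge : ∀ e ∈ E, e.card = r
  simplex : ∀ e ∈ E, AffineIndependent ℝ (fun x : e => (x : Fin d → ℝ))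

/-- `L` is a `k`-dimensional affine subspace. -/
def IsFlat {d : ℕ} (k : ℕ) (L : AffineSubspace ℝ (Fin d → ℝ)) : Prop :=
  (L : Set (Fin d → ℝ)).Nonempty ∧ Module.finrank ℝ L.direction = k

/-- the number of edges (closed simplices) of `H` met by `L` -/
noncomputable def met {d r : ℕ} (H : GeomHypergraph d r) (L : AffineSubspace ℝ (Fin d → ℝ)) : ℕ :=
  Set.ncard {e : Finset (Fin d → ℝ) | e ∈ H.E ∧ ((L : Set (Fin d → ℝ)) ∩ convexHull ℝ (e : Set (Fin d → ℝ))).Nonempty}

/-- `f^k_{d,r}(m,n)`: the largest `t` such that every geometric `r`-hypergraph in `ℝ^d` with `n` vertices and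
`m` edges has a `k`-flat meeting at least `t` of its edges. -/
noncomputable def f (d r k m n : ℕ) : ℕ :=
  sSup {t : ℕ | ∀ H : GeomHypergraph d r, H.V.card = n → H.E.card = m → ∃ L, IsFlat k L ∧ t ≤ met H L}

section main
variable {d r k m n : ℕ}

lemma met_le (H : GeomHypergraph d r) (L : AffineSubspace ℝ (Fin d → ℝ)) : met H L ≤ H.E.card := by
  unfold met
  rw [← Set.ncard_coe_finset H.E]
  exact Set.ncard_le_ncard (fun e he => he.1) (Finset.finite_toSet _)

lemma exists_flat (hk : k ≤ d) (x : Fin d → ℝ) : ∃ L : AffineSubspace ℝ (Fin d → ℝ), x ∈ L ∧ IsFlat k L := by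
  let b : Fin k → Fin d → ℝ := fun t => Pi.basisFun ℝ (Fin d) (Fin.castLE hk t)
  have hb : LinearIndependent ℝ b :=
    (Pi.basisFun ℝ (Fin d)).linearIndependent.comp _ (Fin.castLE_injective hk)
  refine ⟨AffineSubspace.mk' x (Submodule.span ℝ (Set.range b)), AffineSubspace.self_mem_mk' _ _,
    ⟨x, AffineSubspace.self_mem_mk' _ _⟩, ?_⟩
  rw [AffineSubspace.direction_mk', finrank_span_eq_card hb, Fintype.card_fin]

/-- the known lower bound: some vertex lies in at least `r m / n` edges -/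
lemma lower (hk : k ≤ d) (H : GeomHypergraph d r) (hn : H.V.card = n) (hm : H.E.card = m) (hm1 : 1 ≤ m)
    (hr : 1 ≤ r) : ∃ L, IsFlat k L ∧ r * m ≤ met H L * n ∧ 1 ≤ met H L := by
  classical
  have hsum : ∑ x ∈ H.V, (H.E.filter (x ∈ ·)).card = r * m := by
    simp only [card_filter]
    rw [sum_comm, ← hm, mul_comm, ← smul_eq_mul, ← sum_const]
    refine sum_congr rfl fun e he => ?_
    rw [← card_filter]
    have hfil : H.V.filter (· ∈ e) = e := by
      ext y
      simp only [mem_filter]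
      exact ⟨fun h => h.2, fun h => ⟨H.sub e he h, h⟩⟩
    rw [hfil, H.card_edge e he]
  have hVne : H.V.Nonempty := by
    rw [Finset.nonempty_iff_ne_empty]
    intro h0
    rw [h0, sum_empty] at hsum
    have : 1 ≤ r * m := Nat.one_le_iff_ne_zero.mpr (Nat.mul_ne_zero (by omega) (by omega))
    omega
  obtain ⟨x, hx, hmax⟩ := exists_max_image H.V (fun x => (H.E.filter (x ∈ ·)).card) hVne
  have h1 : r * m ≤ (H.E.filter (x ∈ ·)).card * n := by
    rw [← hsum, ← hn, mul_comm, ← smul_eq_mul]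
    exact sum_le_card_nsmul _ _ _ hmax
  obtain ⟨L, hxL, hL⟩ := exists_flat hk x
  have h2 : (H.E.filter (x ∈ ·)).card ≤ met H L := by
    unfold met
    rw [← Set.ncard_coe_finset]
    refine Set.ncard_le_ncard ?_ ((Finset.finite_toSet H.E).subset fun e he => he.1)
    intro e he
    simp only [coe_filter, Set.mem_ofPred_eq] at he ⊢
    exact ⟨he.1, x, hxL, subset_convexHull ℝ _ he.2⟩
  refine ⟨L, hL, h1.trans (Nat.mul_le_mul_right _ h2), ?_⟩
  have h3 : 1 ≤ r * m := Nat.one_le_iff_ne_zero.mpr (Nat.mul_ne_zero (by omega) (by omega))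
  by_contra hcon
  have h4 : met H L = 0 := by omega
  rw [h4] at h2
  have : (H.E.filter (x ∈ ·)).card = 0 := by omega
  rw [this] at h1
  omega

lemma upper [NeZero n] (hr : 1 ≤ r) (hrk : r + k ≤ d) (hm : m ≤ n.choose r) :
    ∃ H : GeomHypergraph d r, H.V.card = n ∧ H.E.card = m ∧
      ∀ L, IsFlat k L → met H L * n ≤ r * ((k + 1) * d) * (r * (m + n)) := by
  classical
  obtain ⟨E, hEr, hEm, hEdeg⟩ := near_regular (n := n) hm
  obtain ⟨x, hx⟩ := exists_algInd (ZMod n × Fin d)
  let v : ZMod n → Fin d → ℝ := fun i e => x (i, e)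
  have hv : AlgebraicIndependent ℚ (fun p : ZMod n × Fin d => v p.1 p.2) := hx
  have hd : 0 < d := by omega
  have hvinj : Function.Injective v := by
    intro a b hab
    have : ((a, (⟨0, hd⟩ : Fin d)) : ZMod n × Fin d) = (b, ⟨0, hd⟩) := hv.injective (by simp [hab])
    exact congrArg Prod.fst this
  let H : GeomHypergraph d r :=
    { V := univ.image v
      general := fun s hs hc => generic_indep hv s (fun y hy => by
        obtain ⟨i, _, hi⟩ := mem_image.mp (hs hy); exact ⟨i, hi⟩) hc.le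
      E := E.image (fun e => e.image v)
      sub := by
        intro e he
        obtain ⟨e', _, rfl⟩ := mem_image.mp he
        exact image_subset_image (subset_univ _)
      card_edge := by
        intro e he
        obtain ⟨e', he', rfl⟩ := mem_image.mp he
        rw [card_image_of_injective _ hvinj, hEr e' he']
      simplex := by
        intro e he
        obtain ⟨e', he', rfl⟩ := mem_image.mp he
        refine generic_indep hv _ (fun y hy => ?_) ?_
        · obtain ⟨i, _, hi⟩ := mem_image.mp hy; exact ⟨i, hi⟩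
        · rw [card_image_of_injective _ hvinj, hEr e' he']; omega }
  refine ⟨H, ?_, ?_, ?_⟩
  · change (univ.image v).card = n
    rw [card_image_of_injective _ hvinj, card_univ, ZMod.card]
  · change (E.image (fun e => e.image v)).card = m
    rw [card_image_of_injective _ (Finset.image_injective hvinj), hEm]
  intro L hL
  let M : Finset (Finset (ZMod n)) :=
    E.filter (fun e => ((L : Set (Fin d → ℝ)) ∩ convexHull ℝ ((e.image v : Finset _) : Set (Fin d → ℝ))).Nonempty)
  have hmet : met H L ≤ M.card := by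
    have h1 : {e : Finset (Fin d → ℝ) | e ∈ H.E ∧ ((L : Set (Fin d → ℝ)) ∩ convexHull ℝ (e : Set (Fin d → ℝ))).Nonempty}
        = ((M.image (fun e => e.image v) : Finset _) : Set (Finset (Fin d → ℝ))) := by
      ext e
      constructor
      · intro he
        obtain ⟨e', he', rfl⟩ := mem_image.mp (he.1 : e ∈ E.image (fun e => e.image v))
        exact mem_coe.mpr (mem_image_of_mem _ (mem_filter.mpr ⟨he', he.2⟩))
      · intro he
        obtain ⟨e', he', rfl⟩ := mem_image.mp (mem_coe.mp he)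
        exact ⟨mem_image_of_mem _ (mem_filter.mp he').1, (mem_filter.mp he').2⟩
    unfold met
    rw [h1, Set.ncard_coe_finset]
    exact card_image_le
  -- a maximal disjoint subfamily
  let S : Finset (Finset (Finset (ZMod n))) := M.powerset.filter (fun D => ∀ a ∈ D, ∀ b ∈ D, a ≠ b → Disjoint a b)
  obtain ⟨D, hD, hDmax⟩ := exists_max_image S card ⟨∅, by simp [S]⟩
  simp only [S, mem_filter, mem_powerset] at hD
  obtain ⟨hDM, hDdis⟩ := hD
  have hDcard : D.card ≤ (k + 1) * d := by
    let en : Fin D.card ≃ D := D.equivFin.symm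
    obtain ⟨r', rfl⟩ : ∃ r', r = r' + 1 := ⟨r - 1, by omega⟩
    refine generic_flat (k := k) (r := r') (by omega) hv (fun i => (en i : Finset (ZMod n))) ?_ ?_ hL.1 hL.2 ?_
    · intro i
      exact hEr _ (mem_filter.mp (hDM (en i).2)).1
    · intro i j hij
      refine hDdis _ (en i).2 _ (en j).2 (fun h => hij (en.injective (Subtype.ext h)))
    · intro i
      exact (mem_filter.mp (hDM (en i).2)).2
  let U : Finset (ZMod n) := D.biUnion id
  have hU : U.card ≤ (k + 1) * d * r := by
    refine (card_biUnion_le_card_mul _ _ r ?_).trans (Nat.mul_le_mul_right _ hDcard)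
    intro e he
    exact (hEr e (mem_filter.mp (hDM he)).1).le
  have hcov : M ⊆ U.biUnion (fun y => E.filter (y ∈ ·)) := by
    intro e he
    have heE : e ∈ E := (mem_filter.mp he).1
    by_contra hcon
    have hdisj : ∀ b ∈ D, Disjoint e b := by
      intro b hb
      rw [Finset.disjoint_left]
      intro y hye hyb
      apply hcon
      rw [mem_biUnion]
      exact ⟨y, mem_biUnion.mpr ⟨b, hb, hyb⟩, mem_filter.mpr ⟨heE, hye⟩⟩
    have hne : e.Nonempty := by
      rw [← card_pos, hEr e heE]; omega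
    have heD : e ∉ D := by
      intro h
      have := hdisj e h
      rw [disjoint_self_iff_empty] at this
      rw [this] at hne
      exact absurd hne (by simp)
    have hins : insert e D ∈ S := by
      simp only [S, mem_filter, mem_powerset]
      refine ⟨insert_subset he hDM, ?_⟩
      intro a ha b hb hab
      rcases mem_insert.mp ha with rfl | ha'
      · rcases mem_insert.mp hb with rfl | hb'
        · exact absurd rfl hab
        · exact hdisj b hb'
      · rcases mem_insert.mp hb with rfl | hb'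
        · exact (hdisj a ha').symm
        · exact hDdis a ha' b hb' hab
    have := hDmax _ hins
    rw [card_insert_of_notMem heD] at this
    omega
  calc met H L * n ≤ M.card * n := Nat.mul_le_mul_right _ hmet
    _ ≤ (∑ y ∈ U, (E.filter (y ∈ ·)).card) * n :=
        Nat.mul_le_mul_right _ ((card_le_card hcov).trans card_biUnion_le)
    _ = ∑ y ∈ U, (E.filter (y ∈ ·)).card * n := by rw [sum_mul]
    _ ≤ U.card • (r * (m + n)) := sum_le_card_nsmul _ _ _ (fun y _ => hEdeg y)
    _ = U.card * (r * (m + n)) := by rw [smul_eq_mul]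
    _ ≤ (k + 1) * d * r * (r * (m + n)) := Nat.mul_le_mul_right _ hU
    _ = r * ((k + 1) * d) * (r * (m + n)) := by ring

/-- For `r + k ≤ d` the order of magnitude of `f^k_{d,r}(m,n)` is `1 + m/n`. -/
theorem result :
    ∀ d r k : ℕ, 1 ≤ r → r + k ≤ d → ∀ m n : ℕ, 1 ≤ m → m ≤ n.choose r →
      1 ≤ f d r k m n ∧ (r * m / n : ℝ) ≤ f d r k m n ∧
      (f d r k m n : ℝ) ≤ r ^ 2 * (k + 1) * d * (1 + m / n) := by
  intro d r k hr hrk m n hm1 hm
  have hn : 0 < n := by
    rcases Nat.eq_zero_or_pos n with rfl | h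
    · rw [Nat.choose_eq_zero_of_lt (by omega)] at hm; omega
    · exact h
  have : NeZero n := ⟨hn.ne'⟩
  obtain ⟨H, hHn, hHm, hH⟩ := upper (n := n) hr hrk hm
  have hbdd : BddAbove {t : ℕ | ∀ H : GeomHypergraph d r, H.V.card = n → H.E.card = m →
      ∃ L, IsFlat k L ∧ t ≤ met H L} := by
    refine ⟨m, fun t ht => ?_⟩
    obtain ⟨L, _, h⟩ := ht H hHn hHm
    exact h.trans (hHm ▸ met_le H L)
  have hnR : (0 : ℝ) < n := by exact_mod_cast hn
  have hlow : ∀ t : ℕ, t * n < r * m + n → t ≤ max 1 t → (t ≤ 1 ∨ t * n < r * m + n) → t ≤ f d r k m n := by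
    intro t ht _ _
    refine le_csSup hbdd ?_
    intro H' hn' hm'
    obtain ⟨L, hL, h1, _⟩ := lower (k := k) (by omega) H' hn' hm' hm1 hr
    refine ⟨L, hL, ?_⟩
    by_contra hcon
    push Not at hcon
    have : (met H' L + 1) * n ≤ t * n := Nat.mul_le_mul_right _ hcon
    have h2 : (met H' L + 1) * n = met H' L * n + n := by ring
    omega
  refine ⟨?_, ?_, ?_⟩
  · refine le_csSup hbdd ?_
    intro H' hn' hm'
    obtain ⟨L, hL, _, h1⟩ := lower (k := k) (by omega) H' hn' hm' hm1 hr
    exact ⟨L, hL, h1⟩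
  · obtain ⟨t, ht1, ht2⟩ : ∃ t : ℕ, r * m ≤ t * n ∧ t * n < r * m + n := by
      refine ⟨(r * m + (n - 1)) / n, ?_, ?_⟩
      · have h1 := Nat.div_add_mod (r * m + (n - 1)) n
        have h2 := Nat.mod_lt (r * m + (n - 1)) hn
        rw [mul_comm n] at h1
        omega
      · have h1 := Nat.div_mul_le_self (r * m + (n - 1)) n
        omega
    have h3 := hlow t ht2 (le_max_right _ _) (Or.inr ht2)
    have h4 : (r * m / n : ℝ) ≤ t := by
      rw [div_le_iff₀ hnR]; exact_mod_cast ht1
    exact h4.trans (by exact_mod_cast h3)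
  · have h1 : f d r k m n ∈ {t : ℕ | ∀ H : GeomHypergraph d r, H.V.card = n → H.E.card = m →
        ∃ L, IsFlat k L ∧ t ≤ met H L} := by
      refine Nat.sSup_mem ⟨0, ?_⟩ hbdd
      intro H' hn' hm'
      obtain ⟨L, hL, _, h1⟩ := lower (k := k) (by omega) H' hn' hm' hm1 hr
      exact ⟨L, hL, Nat.zero_le _⟩
    obtain ⟨L, hL, h2⟩ := h1 H hHn hHm
    have h3 : f d r k m n * n ≤ r * ((k + 1) * d) * (r * (m + n)) := (Nat.mul_le_mul_right _ h2).trans (hH L hL)
    have h4 : (f d r k m n : ℝ) * n ≤ r * ((k + 1) * d) * (r * (m + n)) := by exact_mod_cast h3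
    have h5 : (r ^ 2 * (k + 1) * d * (1 + m / n) : ℝ) = (r * ((k + 1) * d) * (r * (m + n))) / n := by
      field_simp
      ring
    rw [h5, le_div_iff₀ hnR]
    exact h4

end main

end Pool.Agent.Results.MP_737bdd_co.LinearRange
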